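import Mathlib
import Pool.Agent.H916R3.Base.Combine
import Pool.Agent.H916R3.Base.Parts

/-!
# Base resolvability of hereditarily separable spaces of size at most `ℵ₁`, and of hereditarily
separable spaces of weight below `ℵ_ω` with at most `ℵ₁` points of uncountable character

Order of a point `y` in a base `ℬ`: it is countable if `{W ∈ ℬ | y ∈ W ⊆ V}` is countable for some
neighbourhood `V`.  Hereditary separability shows that for every `V` only countably many members of
`ℬ` below `V` meet the set of points of `V` of countable order below `V`; hence `ℬ` is the disjoint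
union of countable pieces such that every point of countable order has a local base inside one
piece.  Each countable piece can be two-coloured by a greedy (priority) argument.  Points of
uncountable order and countable character are treated by a decomposition obtained by induction on
the cardinality of the base, and at most `ℵ₁` further points by a selection of distinct pieces.
-/

set_option autoImplicit false

namespace Pool.Agent.Results.MP_12e723_gt.HSSmall

open Set TopologicalSpace Topology Cardinal Pool.Agent.H916R3.Base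

universe u

/-- Every base is the disjoint union of two bases. -/
def BaseResolvable (X : Type u) [TopologicalSpace X] : Prop :=
  ∀ ℬ : Set (Set X), IsTopologicalBasis ℬ → ∃ ℬ₀ ℬ₁ : Set (Set X),
    ℬ₀ ∪ ℬ₁ = ℬ ∧ ℬ₀ ∩ ℬ₁ = ∅ ∧ IsTopologicalBasis ℬ₀ ∧ IsTopologicalBasis ℬ₁

/-- Every subspace is separable. -/
def HereditarilySeparable (X : Type u) [TopologicalSpace X] : Prop :=
  ∀ Y : Set X, SeparableSpace Y

/-- The set of points that have no countable local base. -/
def UncountableCharacter (X : Type u) [TopologicalSpace X] : Set X :=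
  {x | ¬ (𝓝 x).IsCountablyGenerated}

theorem hs_of {X : Type u} [TopologicalSpace X] (h : HereditarilySeparable X) :
    ∀ Y : Set X, ∃ D, D ⊆ Y ∧ D.Countable ∧ Y ⊆ closure D := by
  intro Y
  have := h Y
  obtain ⟨D, hDc, hDd⟩ := TopologicalSpace.exists_countable_dense Y
  refine ⟨Subtype.val '' D, ?_, hDc.image _, ?_⟩
  · rintro _ ⟨y, _, rfl⟩
    exact y.2
  · intro y hy
    exact closure_subtype.1 (hDd ⟨y, hy⟩)

theorem loc_of_basis {X : Type u} [TopologicalSpace X] {ℬ : Set (Set X)}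
    (hb : IsTopologicalBasis ℬ) : ∀ y, Loc ℬ y := by
  intro y U hU hy
  obtain ⟨W, h1, h2, h3⟩ := hb.exists_subset_of_mem_open hy hU
  exact ⟨W, h1, h2, h3⟩

theorem basis_of_loc {X : Type u} [TopologicalSpace X] {ℬ : Set (Set X)}
    (ho : ∀ V ∈ ℬ, IsOpen V) (h : ∀ y, Loc ℬ y) : IsTopologicalBasis ℬ := by
  refine isTopologicalBasis_of_isOpen_of_nhds ho ?_
  intro y U hy hU
  obtain ⟨W, h1, h2, h3⟩ := h y U hU hy
  exact ⟨W, h1, h2, h3⟩

/-- A base contains a base of size at most the weight. -/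
theorem thin {X : Type u} [TopologicalSpace X] {κ : Cardinal.{u}} (hκ : ℵ₀ ≤ κ)
    {ℬ ℬ₀ : Set (Set X)} (hb : IsTopologicalBasis ℬ) (hb₀ : IsTopologicalBasis ℬ₀)
    (hc : #ℬ₀ ≤ κ) : ∃ ℬ', ℬ' ⊆ ℬ ∧ IsTopologicalBasis ℬ' ∧ #ℬ' ≤ κ := by
  classical
  let Q : Set X × Set X → Set X → Prop := fun p W => W ∈ ℬ ∧ p.1 ⊆ W ∧ W ⊆ p.2
  have hch : ∀ p : Set X × Set X, ∃ W, (∃ W', Q p W') → Q p W := by
    intro p
    by_cases h : ∃ W', Q p W'
    · obtain ⟨W, hW⟩ := h
      exact ⟨W, fun _ => hW⟩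
    · exact ⟨∅, fun h' => absurd h' h⟩
  choose g hg using hch
  let P : Set (Set X × Set X) := {p | p ∈ ℬ₀ ×ˢ ℬ₀ ∧ ∃ W', Q p W'}
  have hP : #P ≤ κ := by
    refine card_mono (t := ℬ₀ ×ˢ ℬ₀) (fun p hp => hp.1) ?_
    rw [Cardinal.mk_setProd]
    exact Cardinal.mul_le_of_le hκ (by simpa using hc) (by simpa using hc)
  have hsub : g '' P ⊆ ℬ := by
    rintro W ⟨p, hp, rfl⟩
    exact (hg p hp.2).1
  refine ⟨g '' P, hsub, ?_, Cardinal.mk_image_le.trans hP⟩
  refine basis_of_loc (fun V hV => hb.isOpen (hsub hV)) ?_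
  intro y O hO hyO
  obtain ⟨V, hV, hyV, hVO⟩ := loc_of_basis hb₀ y O hO hyO
  obtain ⟨W, hW, hyW, hWV⟩ := loc_of_basis hb y V (hb₀.isOpen hV) hyV
  obtain ⟨U, hU, hyU, hUW⟩ := loc_of_basis hb₀ y W (hb.isOpen hW) hyW
  have hex : ∃ W', Q (U, V) W' := ⟨W, hW, hUW, hWV⟩
  have h2 := hg (U, V) hex
  exact ⟨g (U, V), ⟨(U, V), ⟨⟨hU, hV⟩, hex⟩, rfl⟩, h2.2.1 hyU, h2.2.2.trans hVO⟩

theorem finish {X : Type u} [TopologicalSpace X] {ℬ ℬ' A : Set (Set X)}
    (hb : IsTopologicalBasis ℬ) (hsub : ℬ' ⊆ ℬ) (hA : A ⊆ ℬ')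
    (h : ∀ y, Loc A y ∧ Loc (ℬ' \ A) y) : ∃ ℬ₀ ℬ₁ : Set (Set X),
    ℬ₀ ∪ ℬ₁ = ℬ ∧ ℬ₀ ∩ ℬ₁ = ∅ ∧ IsTopologicalBasis ℬ₀ ∧ IsTopologicalBasis ℬ₁ := by
  refine ⟨A, ℬ \ A, union_sdiff_cancel (hA.trans hsub), ?_, ?_, ?_⟩
  · ext W
    constructor
    · rintro ⟨h1, h2⟩
      exact absurd h1 h2.2
    · intro hW
      exact absurd hW (notMem_empty _)
  · exact basis_of_loc (fun V hV => hb.isOpen (hsub (hA hV))) fun y => (h y).1
  · refine basis_of_loc (fun V hV => hb.isOpen hV.1) fun y => (h y).2.mono ?_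
    intro W hW
    exact ⟨hsub hW.1, hW.2⟩

/-- The points `y` such that each neighbourhood `V` of `y` contains uncountably many members of
`ℬ` that contain `y`. -/
def UncountableOrder {X : Type u} [TopologicalSpace X] (ℬ : Set (Set X)) : Set X :=
  {y | ∀ V, IsOpen V → y ∈ V → ¬ {W | W ∈ ℬ ∧ y ∈ W ∧ W ⊆ V}.Countable}

theorem order {X : Type u} [TopologicalSpace X] [T1Space X]
    (hiso : ∀ x : X, ¬ IsOpen ({x} : Set X)) (hs : HereditarilySeparable X)
    {ℬ : Set (Set X)} (hb : IsTopologicalBasis ℬ)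
    (hZ : #(UncountableOrder ℬ) ≤ Cardinal.aleph.{u} 1) : ∃ ℬ₀ ℬ₁ : Set (Set X),
    ℬ₀ ∪ ℬ₁ = ℬ ∧ ℬ₀ ∩ ℬ₁ = ∅ ∧ IsTopologicalBasis ℬ₀ ∧ IsTopologicalBasis ℬ₁ := by
  have ho : ∀ V ∈ ℬ, IsOpen V := fun V hV => hb.isOpen hV
  obtain ⟨β, D, h1, h2, h3, h4, h5⟩ := typeA_blocks (hs_of hs) ho (loc_of_basis hb)
  obtain ⟨A, hA, hA'⟩ := combine hiso ho (loc_of_basis hb) D h1 h2 h3 h4 (UncountableOrder ℬ)
    hZ (by
      intro y hy
      apply h5
      by_contra hcon
      push Not at hcon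
      exact hy fun V hV hyV => hcon V hV hyV) (fun y hy => hy)
  exact finish hb subset_rfl hA hA'

theorem size {X : Type u} [TopologicalSpace X] [T1Space X]
    (hiso : ∀ x : X, ¬ IsOpen ({x} : Set X)) (hs : HereditarilySeparable X)
    (hX : #X ≤ Cardinal.aleph.{u} 1) : BaseResolvable X := by
  intro ℬ hb
  exact order hiso hs hb ((Cardinal.mk_set_le _).trans hX)

theorem weight {X : Type u} [TopologicalSpace X] [T1Space X]
    (hiso : ∀ x : X, ¬ IsOpen ({x} : Set X)) (hs : HereditarilySeparable X) (n : ℕ)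
    (hw : ∃ ℬ₀ : Set (Set X), IsTopologicalBasis ℬ₀ ∧ #ℬ₀ ≤ Cardinal.aleph.{u} n)
    (hχ : #(UncountableCharacter X) ≤ Cardinal.aleph.{u} 1) : BaseResolvable X := by
  intro ℬ hb
  obtain ⟨ℬ₀, hb₀, hc₀⟩ := hw
  obtain ⟨ℬ', hsub, hb', hc'⟩ := thin (Cardinal.aleph0_le_aleph _) hb hb₀ hc₀
  have ho : ∀ V ∈ ℬ', IsOpen V := fun V hV => hb'.isOpen hV
  obtain ⟨β, D, h1, h2, h3, h4, h5⟩ := parts (hs_of hs) n ℬ' ho hc'
  let Z : Set X := {y | y ∈ UncountableCharacter X ∧
    ∀ V, IsOpen V → y ∈ V → ¬ (Btw ℬ' y V).Countable}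
  obtain ⟨A, hA, hA'⟩ := combine hiso ho (loc_of_basis hb') D h1 h2 h3 h4 Z
    (card_mono (fun y hy => hy.1) hχ) (by
      intro y hy
      apply h5 y (loc_of_basis hb' y)
      by_contra hcon
      rw [not_or] at hcon
      obtain ⟨h6, h7⟩ := hcon
      push Not at h6
      exact hy ⟨h7, fun V hV hyV => h6 V hV hyV⟩) (fun y hy => hy.2)
  exact finish hb hsub hA hA'

/-- A separable regular space has a base of size at most continuum. -/
theorem regular_weight {X : Type u} [TopologicalSpace X] [RegularSpace X] [SeparableSpace X] :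
    ∃ ℬ₀ : Set (Set X), IsTopologicalBasis ℬ₀ ∧ #ℬ₀ ≤ 𝔠 := by
  obtain ⟨D, hDc, hDd⟩ := TopologicalSpace.exists_countable_dense X
  refine ⟨(fun E => interior (closure E)) '' {E | E ⊆ D}, ?_, ?_⟩
  · refine isTopologicalBasis_of_isOpen_of_nhds ?_ ?_
    · rintro _ ⟨E, _, rfl⟩
      exact isOpen_interior
    · intro x U hx hU
      obtain ⟨t, ht, htc, htU⟩ := exists_mem_nhds_isClosed_subset (hU.mem_nhds hx)
      refine ⟨interior (closure (interior t ∩ D)), ⟨interior t ∩ D, inter_subset_right, rfl⟩, ?_, ?_⟩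
      · have h1 : interior t ⊆ closure (interior t ∩ D) :=
          hDd.open_subset_closure_inter isOpen_interior
        exact interior_maximal h1 isOpen_interior (mem_interior_iff_mem_nhds.2 ht)
      · refine interior_subset.trans ((closure_mono ?_).trans (htc.closure_eq.subset.trans htU))
        exact inter_subset_left.trans interior_subset
  · refine Cardinal.mk_image_le.trans ?_
    have h1 : #{E : Set X | E ⊆ D} = 2 ^ #D := Cardinal.mk_powerset D
    rw [h1, ← Cardinal.two_power_aleph0]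
    exact Cardinal.power_le_power_left two_ne_zero (Cardinal.le_aleph0_iff_set_countable.2 hDc)

/-- Let `X` be a hereditarily separable `T₁` space without isolated points.
(A) If `X` has at most `ℵ₁` points, it is base resolvable.
(B) If `X` has a base of size at most `ℵ_n` for a natural number `n` and at most `ℵ₁` points of
uncountable character, it is base resolvable.
(C) If `X` is `T₃`, the continuum is at most `ℵ_n` for a natural number `n` and `X` has at most
`ℵ₁` points of uncountable character (for example if it is first countable), it is base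
resolvable.
(D) Every base of `X` in which at most `ℵ₁` points have uncountable order is resolvable. -/
theorem result (X : Type u) [TopologicalSpace X] [T1Space X]
    (hiso : ∀ x : X, ¬ IsOpen ({x} : Set X)) (hs : HereditarilySeparable X) :
    (#X ≤ Cardinal.aleph.{u} 1 → BaseResolvable X) ∧
    (∀ n : ℕ, (∃ ℬ₀ : Set (Set X), IsTopologicalBasis ℬ₀ ∧ #ℬ₀ ≤ Cardinal.aleph.{u} n) →
      #(UncountableCharacter X) ≤ Cardinal.aleph.{u} 1 → BaseResolvable X) ∧
    (∀ n : ℕ, Cardinal.continuum.{u} ≤ Cardinal.aleph.{u} n → T3Space X →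
      #(UncountableCharacter X) ≤ Cardinal.aleph.{u} 1 → BaseResolvable X) ∧
    (∀ ℬ : Set (Set X), IsTopologicalBasis ℬ → #(UncountableOrder ℬ) ≤ Cardinal.aleph.{u} 1 →
      ∃ ℬ₀ ℬ₁ : Set (Set X), ℬ₀ ∪ ℬ₁ = ℬ ∧ ℬ₀ ∩ ℬ₁ = ∅ ∧
        IsTopologicalBasis ℬ₀ ∧ IsTopologicalBasis ℬ₁) := by
  refine ⟨size hiso hs, weight hiso hs, ?_, fun ℬ hb hZ => order hiso hs hb hZ⟩
  intro n hn hT3 hχ
  have hsep : SeparableSpace X := by
    obtain ⟨D, _, hDc, hD⟩ := hs_of hs univ
    exact ⟨D, hDc, fun x => hD (mem_univ x)⟩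
  obtain ⟨ℬ₀, h1, h2⟩ := regular_weight (X := X)
  exact weight hiso hs n ⟨ℬ₀, h1, h2.trans hn⟩ hχ

end Pool.Agent.Results.MP_12e723_gt.HSSmall
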